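import Pool.Agent.Helper54.PT.LocG

/-!
# The local sets are isotropic
-/

set_option autoImplicit false

namespace Pool.Agent.Helper54.PT

open Finset Pool.Agent.Helper43.TW Pool.Agent.Helper47.BSD

section LocS

variable {k : Type} [NontriviallyNormedField k] [IsUltrametricDist k] [CompleteSpace k]
  {ℓ : ℕ} [Fact ℓ.Prime] {π : k} {ι : Type} [Fintype ι] [DecidableEq ι] {a : ι → ℕ}
  {K : Type} [Field K] {φ : K →+* k} {f : Cl ℓ k →+ ZMod ℓ × ZMod ℓ} {e : ι → K}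

omit [IsUltrametricDist k] [CompleteSpace k] in
theorem f_tm (hk : LF ℓ π) (f : Cl ℓ k →+ ZMod ℓ × ZMod ℓ) (x y : Cl ℓ k) :
    f (tm hk x y) = nu hk y • f x - nu hk x • f y := by
  rw [tm, map_sub, ZMod.map_smul, ZMod.map_smul]

omit [IsUltrametricDist k] [CompleteSpace k] in
/-- S0: the functional -/
theorem exists_lin (hk : LF ℓ π) (hf : FC hk f) : ∃ L : ZMod ℓ × ZMod ℓ →+ ZMod ℓ,
    (∀ x y, L (f (tm hk x y)) = -pzG (f x) (f y)) ∧
      (ℓ = 2 → ∀ x, L (f (nu hk x • x)) = (f x).1 * (f x).2) := by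
  rcases hf.ord with h | h
  · refine ⟨AddMonoidHom.snd _ _, ?_, ?_⟩
    · intro x y
      rw [f_tm, ← h x, ← h y]
      simp only [AddMonoidHom.coe_snd, Prod.snd_sub, Prod.smul_snd, smul_eq_mul, pzG]
      ring
    · intro _ x
      rw [ZMod.map_smul, ← h x]
      simp only [AddMonoidHom.coe_snd, Prod.smul_snd, smul_eq_mul]
  · refine ⟨AddMonoidHom.fst _ _, ?_, ?_⟩
    · intro x y
      have hx : nu hk x = -(f x).2 := by rw [h x, neg_neg]
      have hy : nu hk y = -(f y).2 := by rw [h y, neg_neg]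
      rw [f_tm, hx, hy]
      simp only [AddMonoidHom.coe_fst, Prod.fst_sub, Prod.smul_fst, smul_eq_mul, pzG]
      ring
    · intro h2 x
      subst h2
      have hx : nu hk x = (f x).2 := by rw [h x, ZModModule.neg_eq_self]
      rw [ZMod.map_smul, hx]
      simp only [AddMonoidHom.coe_fst, Prod.smul_fst, smul_eq_mul]
      ring

/-- S1: isotropy of the local sets (uses L5, L9, E0, S0) -/
theorem locS_iso (hk : LF ℓ π) (hc : cl ℓ (-1 : k) = 0) (ha : ∀ i, ¬ ℓ ∣ a i) (hf : FC hk f)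
    (he : ∀ i j, i ≠ j → e i ≠ e j) (i₀ : ι) (c : ZMod ℓ)
    (L5 : ∀ {E : ι → k} {w w' : ι → Cl ℓ k}, (∀ i j, i ≠ j → E i ≠ E j) → PtData hk a E w →
      PtData hk a E w' → ∑ i, (a i : ZMod ℓ) • tm hk (w i) (w' i) = 0)
    (L9 : ∀ {E : ι → k} {w : ι → Cl ℓ k} {u : k}, u ≠ 0 → (∀ i j, i ≠ j → E i ≠ E j) →
      PtData hk a (fun i => u ^ ℓ * E i) w → PtData hk a E w)
    (E0 : ∀ {i₀ : ι} {u : ι → ZMod ℓ × ZMod ℓ}, ¬ ℓ ∣ a i₀ → ∑ i, (a i : ZMod ℓ) • u i = 0 →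
      ∀ i, exG a i₀ (mkG i₀ u) i = u i) :
    ∀ w ∈ LocS hk φ f a e i₀ c, ∀ w' ∈ LocS hk φ f a e i₀ c, bG a i₀ w w' = 0 := by
  rintro w ⟨D, u, hD, hDc, hu, rfl⟩ w' ⟨D', u', hD', hDc', hu', rfl⟩
  have hℓ : ℓ ≠ 0 := (Fact.out : ℓ.Prime).ne_zero
  have hφD : φ D ≠ 0 := (map_ne_zero φ).2 hD
  have hφD' : φ D' ≠ 0 := (map_ne_zero φ).2 hD'
  have hcl : cl ℓ (φ D') = cl ℓ (φ D) := hf.inj (by rw [hDc, hDc'])
  obtain ⟨z, hz, hzD⟩ := (cl_eq_iff hℓ hφD' hφD).1 hcl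
  have hE : ∀ i j, i ≠ j → φ (D * e i) ≠ φ (D * e j) := fun i j hij h =>
    he i j hij (mul_left_cancel₀ hD (φ.injective h))
  have hu'' : PtData hk a (fun i => φ (D * e i)) u' := by
    refine L9 hz hE ?_
    have e1 : (fun i => z ^ ℓ * φ (D * e i)) = fun i => φ (D' * e i) := by
      funext i
      rw [map_mul, map_mul, hzD]
      ring
    rw [e1]
    exact hu'
  have key := L5 hE hu hu''
  obtain ⟨L, hL, -⟩ := exists_lin hk hf
  have rel : ∀ {v : ι → Cl ℓ k}, PtData hk a (fun i => φ (D * e i)) v →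
      ∑ i, (a i : ZMod ℓ) • f (v i) = 0 := by
    rintro v ⟨i₁, ρ, n, h⟩
    have := congrArg f h.rel
    rw [map_sum, map_zero] at this
    rw [← this]
    exact sum_congr rfl fun i _ => by rw [ZMod.map_smul]
  have e1 := fun i => E0 (i₀ := i₀) (u := fun i => f (u i)) (ha i₀) (rel hu) i
  have e2 := fun i => E0 (i₀ := i₀) (u := fun i => f (u' i)) (ha i₀) (rel hu'') i
  unfold bG
  have k1 := congrArg (fun x => L (f x)) key
  simp only [map_sum, map_zero] at k1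
  have k2 : ∀ i ∈ (univ : Finset ι), L (f ((a i : ZMod ℓ) • tm hk (u i) (u' i))) =
      -((a i : ZMod ℓ) * pzG (f (u i)) (f (u' i))) := by
    intro i _
    rw [ZMod.map_smul, ZMod.map_smul, hL, smul_eq_mul, mul_neg]
  rw [sum_congr rfl k2, sum_neg_distrib, neg_eq_zero] at k1
  rw [← k1]
  refine sum_congr rfl fun i _ => ?_
  rw [e1, e2]

end LocS

end Pool.Agent.Helper54.PT
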